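import Pool.Agent.helper39.SGE.Dec

/-!
# SGE₂ reduces to ETR: the reduction is polynomial time
-/

set_option autoImplicit false

namespace Pool.Agent.helper39.SGE

open Pool.Agent.helper56.SGE Pool.Agent.H54.PT N487b59b3 N68a2faeb N793a5b8e

theorem bits_succ {k : ℕ} (hk : 0 < k) : k.bits = k.bodd :: k.div2.bits := by
  conv_lhs => rw [← Nat.bit_bodd_div2 k]
  refine Nat.bits_append_bit _ _ fun h0 => ?_
  by_contra hb
  rw [Bool.not_eq_true] at hb
  have := Nat.bit_bodd_div2 k
  rw [h0, hb] at this
  simp at this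
  omega

theorem bodd_eq (n : ℕ) : n.bodd = decide (n % 2 = 1) := by
  have h := Nat.mod_two_of_bodd n
  cases hb : n.bodd
  · rw [hb] at h
    simp at h
    simp [h]
  · rw [hb] at h
    simp at h
    simp [h]

theorem bits_eq (n : ℕ) : n.bits = Computability.encodeNat n := by
  induction n using Nat.strong_induction_on with
  | _ n ih =>
    rcases Nat.eq_zero_or_pos n with rfl | hn
    · rfl
    · rw [bits_succ hn, encodeNat_succ n hn.ne', Nat.div2_val, ih (n / 2) (by omega), bodd_eq]

/-! ### Writing expressions -/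

theorem dp_numCode {e : Fn} (he : Cp e) : Dp (fun x v => numCode (e x v)) := by
  refine ((Dp.bin he (fun b => letter (if b then 2 else 1))).append
    (Dp.const (letter 0))).congr fun x v => ?_
  rw [← bits_eq]
  rfl

theorem dp_lin {e t : Fn} (he : Cp e) (ht : Cp t) : Dp (fun x v => (lin (e x v) (t x v)).code) := by
  refine ((Dp.const (letter 5)).append ((((Dp.const (letter 7)).append
    (((Dp.const (letter 3)).append (dp_numCode ht)).append
      ((Dp.const (letter 3)).append (dp_numCode ((Cp.const 2).mul he)))))).append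
    ((Dp.const (letter 7)).append
    (((Dp.const (letter 3)).append (dp_numCode (ht.add (Cp.const 1)))).append
      ((Dp.const (letter 3)).append
        (dp_numCode (((Cp.const 2).mul he).add (Cp.const 1)))))))).congr fun x v => ?_
  rfl

theorem dp_sepF {e1 e2 e3 e4 t : Fn} (h1 : Cp e1) (h2 : Cp e2) (h3 : Cp e3) (h4 : Cp e4)
    (ht : Cp t) :
    Dp (fun x v => (sepF (e1 x v) (e2 x v) (e3 x v) (e4 x v) (t x v)).code) := by
  have hv : Dp (fun x v => (Tm.var (t x v + 2)).code) :=
    ((Dp.const (letter 3)).append (dp_numCode (ht.add (Cp.const 2)))).congr fun _ _ => rfl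
  refine ((Dp.const (letter 11)).append (((Dp.const (letter 8)).append
      ((dp_lin h1 ht).append hv)).append
    ((Dp.const (letter 11)).append (((Dp.const (letter 8)).append
      ((dp_lin h2 ht).append hv)).append
    ((Dp.const (letter 11)).append (((Dp.const (letter 8)).append
      (hv.append (dp_lin h3 ht))).append
      ((Dp.const (letter 8)).append (hv.append (dp_lin h4 ht))))))))).congr fun x v => ?_
  rfl

/-! ### The data of an instance -/

theorem cp_nn : Cp (fun x _ => nn x) :=
  (Cp.count (P := fun x _ i => (i + 1) * (18 * (i + 1) + 1) ≤ x.length) Cp.len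
    (Cq.le (((Cp.var 0).add (Cp.const 1)).mul
      (((Cp.const 18).mul ((Cp.var 0).add (Cp.const 1))).add (Cp.const 1))) Cp.len)).congr
    fun _ _ => rfl

theorem cp_pos (k : ℕ) {e f : Fn} (he : Cp e) (hf : Cp f) :
    Cp (fun x v => pos (nn x) k (e x v) (f x v)) :=
  ((he.mul (((Cp.const 18).mul cp_nn).add (Cp.const 1))).add
    (((Cp.const 2).mul (((Cp.const 9).mul hf).add (Cp.const (3 + 4 * k)))).add
      (Cp.const 1))).congr fun _ _ => rfl

theorem cq_adjX (k : ℕ) {e f : Fn} (he : Cp e) (hf : Cp f) :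
    Cq (fun x v => adjX x k (e x v) (f x v)) :=
  ((Cq.ne he hf).and ((Cq.bit (cp_pos k he hf)).or (Cq.bit (cp_pos k hf he)))).congr
    fun _ _ => Iff.rfl

theorem cq_QX {a b c d : Fn} (ha : Cp a) (hb : Cp b) (hc : Cp c) (hd : Cp d) :
    Cq (fun x v => QX x (a x v) (b x v) (c x v) (d x v)) :=
  ((Cq.ne ha hc).and ((Cq.ne ha hd).and ((Cq.ne hb hc).and ((Cq.ne hb hd).and
    (((Cq.eq ha hb).and (Cq.eq hc hd)).or (((Cq.eq ha hb).and ((cq_adjX 0 hc hd).or
      (cq_adjX 1 hc hd))).or (((cq_adjX 0 ha hb).and (cq_adjX 0 hc hd)).or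
        ((cq_adjX 1 ha hb).and (cq_adjX 1 hc hd))))))))).congr fun _ _ => Iff.rfl

theorem cq_Valid : Cq (fun x _ => Valid x) := by
  have hm : Cp (fun x (v : ℕ → ℕ) => 18 * nn x + 1) :=
    (((Cp.const 18).mul cp_nn).add (Cp.const 1)).congr fun _ _ => rfl
  have hq : Cp (fun x (v : ℕ → ℕ) => v 0 % (18 * nn x + 1)) := (Cp.var 0).mod hm
  have hr : Cp (fun x (v : ℕ → ℕ) => v 0 % (18 * nn x + 1) / 2 % 9) :=
    (hq.div (Cp.const 2)).mod (Cp.const 9)
  refine ((Cq.eq Cp.len (cp_nn.mul hm)).and (Cq.all'
    (P := fun x _ p => (x.getD p false = true ↔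
      ¬ (p % (18 * nn x + 1) = 18 * nn x) ∧ (p % (18 * nn x + 1) % 2 = 0 ∨
        ((p % (18 * nn x + 1) / 2 % 9 = 3 ∨ p % (18 * nn x + 1) / 2 % 9 = 7) ∧
          x.getD p false = true) ∨
        ¬ (p % (18 * nn x + 1) / 2 % 9 = 3 ∨ p % (18 * nn x + 1) / 2 % 9 = 7 ∨
          p % (18 * nn x + 1) / 2 % 9 = 5 ∨ p % (18 * nn x + 1) / 2 % 9 = 8))))
    Cp.len ?_)).congr fun x v => Iff.rfl
  exact (Cq.bit (Cp.var 0)).iff (((Cq.eq hq ((Cp.const 18).mul cp_nn)).not).and
    ((Cq.eq (hq.mod (Cp.const 2)) (Cp.const 0)).or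
      ((((Cq.eq hr (Cp.const 3)).or (Cq.eq hr (Cp.const 7))).and (Cq.bit (Cp.var 0))).or
        ((Cq.eq hr (Cp.const 3)).or ((Cq.eq hr (Cp.const 7)).or ((Cq.eq hr (Cp.const 5)).or
          (Cq.eq hr (Cp.const 8))))).not)))

/-! ### The reduction -/

open Classical in
/-- the word written by the reduction -/
noncomputable def redW (x : List Bool) : List Bool :=
  if Valid x then (conj (listF (nn x) (fun a b c d => QX x a b c d))).code else []

open Classical in
/-- the contribution of a quadruple -/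
noncomputable def inner (x : List Bool) (u v u' v' : ℕ) : List Bool :=
  if QX x u v u' v' then
    letter 11 ++ (sepF u v u' v' (2 * nn x + 3 * idx (nn x) u v u' v')).code else []

theorem dp_inner : Dp (fun x v => inner x (v 3) (v 2) (v 1) (v 0)) := by
  classical
  have hidx : Cp (fun x v => idx (nn x) (v 3) (v 2) (v 1) (v 0)) :=
    (((((((Cp.var 3).mul cp_nn).add (Cp.var 2)).mul cp_nn).add (Cp.var 1)).mul cp_nn).add
      (Cp.var 0)).congr fun _ _ => rfl
  refine (Dp.iteP (cq_QX (Cp.var 3) (Cp.var 2) (Cp.var 1) (Cp.var 0))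
    ((Dp.const (letter 11)).append (dp_sepF (Cp.var 3) (Cp.var 2) (Cp.var 1) (Cp.var 0)
      (((Cp.const 2).mul cp_nn).add ((Cp.const 3).mul hidx)))) (Dp.const [])).congr
    fun x v => ?_
  unfold inner
  split_ifs <;> rfl

open Classical in
theorem redW_eq (x : List Bool) : (conj (listF (nn x) (fun a b c d => QX x a b c d))).code =
    ((List.range (nn x)).flatMap fun u => (List.range (nn x)).flatMap fun v =>
      (List.range (nn x)).flatMap fun u' => (List.range (nn x)).flatMap fun v' =>
        inner x u v u' v') ++ tru.code := by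
  rw [conj_code]
  congr 1
  unfold listF
  rw [List.flatMap_assoc]
  congr 1
  funext u
  rw [List.flatMap_assoc]
  congr 1
  funext v
  rw [List.flatMap_assoc]
  congr 1
  funext u'
  rw [List.flatMap_assoc]
  congr 1
  funext v'
  unfold inner
  split_ifs
  · simp
  · rfl

theorem dp_loop : Dp (fun x _ =>
    ((List.range (nn x)).flatMap fun u => (List.range (nn x)).flatMap fun v =>
      (List.range (nn x)).flatMap fun u' => (List.range (nn x)).flatMap fun v' =>
        inner x u v u' v') ++ tru.code) := by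
  refine Dp.append ?_ (Dp.const tru.code)
  refine Dp.forE' (w := fun x _ u => (List.range (nn x)).flatMap fun v =>
      (List.range (nn x)).flatMap fun u' => (List.range (nn x)).flatMap fun v' =>
        inner x u v u' v') cp_nn ?_
  refine Dp.forE' (w := fun x z v =>
      (List.range (nn x)).flatMap fun u' => (List.range (nn x)).flatMap fun v' =>
        inner x (z 0) v u' v') cp_nn ?_
  refine Dp.forE' (w := fun x z u' => (List.range (nn x)).flatMap fun v' =>
        inner x (z 1) (z 0) u' v') cp_nn ?_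
  refine Dp.forE' (w := fun x z v' => inner x (z 2) (z 1) (z 0) v') cp_nn ?_
  exact dp_inner

theorem dp_redW : Dp (fun x _ => redW x) := by
  classical
  refine (Dp.iteP cq_Valid dp_loop (Dp.const [])).congr fun x v => ?_
  unfold redW
  rw [redW_eq]

theorem isPolyTime_redW : IsPolyTime redW := by
  obtain ⟨p, c, hp⟩ := exists_prog dp_redW (fun b => [true, b, false])
  refine isPolyTime_of_prog redW p c (fun x => ?_)
  have := hp x
  rw [bitEncode_word]
  exact this

/-- **SGE₂ reduces to ETR.** -/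
theorem M10 : ManyOneReducible SGE2 ETR := by
  refine ⟨redW, isPolyTime_redW, fun x => ?_⟩
  rw [Bool.eq_iff_iff, SGE2_iff]
  classical
  unfold redW
  by_cases hv : Valid x
  · rw [if_pos hv, ETR_code, listF_sat]
    simp [hv]
  · rw [if_neg hv, ETR_nil]
    simp [hv]

end Pool.Agent.helper39.SGE
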