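import Pool.Agent.helper56.SGE.Pos

/-!
# Data with slack of a satisfiable ladder program
-/

set_option autoImplicit false

namespace Pool.Agent.helper39.SGE.R

open Pool.Agent.helper56.SGE Slp

/-- the final gadget -/
theorem gadget {h : ℝ} (h0 : 0 < h) (h1 : h < 1) : ∃ Ju Jy nu ny : ℝ,
    0 < Ju ∧ Ju < nu ∧ nu < 1 ∧ 0 < ny ∧ ny < Jy ∧ Jy < 1 ∧ 1 - Jy < 1 * Ju / 2 ∧
    0 < (2 - Ju) * (ny - Jy) + Jy * (nu - Ju) ∧ Ju * h < h + 1 - Jy ∧
    0 < (nu - Ju) * (1 - Jy) - (ny - Jy) * (1 - Ju) ∧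
    0 < nu * (Jy - (h + 1)) - (ny - (h + 1)) * Ju ∧ 1 * nu < ny := by
  obtain ⟨nu, hnu⟩ : ∃ nu : ℝ, nu * (3 + h) = 2 * (1 + h) :=
    ⟨2 * (1 + h) / (3 + h), by field_simp⟩
  obtain ⟨um, hum⟩ : ∃ um : ℝ, um * (1 + h) = 2 * h := ⟨2 * h / (1 + h), by field_simp⟩
  obtain ⟨k, hk⟩ : ∃ k : ℝ, k * (3 + h) = 1 - h := ⟨(1 - h) / (3 + h), by field_simp⟩
  have k0 : 0 < k := by
    by_contra hk0
    push Not at hk0
    nlinarith
  have k1 : k < 1 := by
    by_contra hk0
    push Not at hk0
    nlinarith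
  have e1 : nu = 1 - k := by
    have : (nu - (1 - k)) * (3 + h) = 0 := by linarith
    rcases mul_eq_zero.mp this with h' | h'
    · linarith
    · linarith
  have um0 : 0 < um := by
    by_contra hk0
    push Not at hk0
    nlinarith
  -- the gap
  have gap : (nu - um) * (1 + h) = 2 * k := by
    have : ((nu - um) * (1 + h) - 2 * k) * (3 + h) = 0 := by
      linear_combination (1 + h) * hnu - (3 + h) * hum - 2 * hk
    rcases mul_eq_zero.mp this with h' | h'
    · linarith
    · linarith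
  have g0 : um < nu := by
    by_contra hc
    push Not at hc
    nlinarith
  set Ju := (um + nu) / 2 with hJu
  have hu : (Ju - um) * (1 + h) = k := by rw [hJu]; linarith
  have hJn : (nu - Ju) * (1 + h) = k := by rw [hJu]; linarith
  have hJ0 : 0 < Ju := by rw [hJu]; linarith
  have hJlt : Ju < nu := by rw [hJu]; linarith
  have hJhalf : nu / 2 < Ju := by rw [hJu]; linarith
  -- the points are on the line `y = (1 + h) (1 - u / 2) + k / 4`
  have eJ : (1 + h) * (1 - Ju / 2) + k / 4 = 1 - k / 4 := by linarith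
  have en : (1 + h) * (1 - nu / 2) = nu := by linarith
  refine ⟨Ju, (1 + h) * (1 - Ju / 2) + k / 4, nu, (1 + h) * (1 - nu / 2) + k / 4, hJ0, hJlt,
    by linarith, ?_, ?_, ?_, ?_, ?_, ?_, ?_, ?_, ?_⟩
  · rw [en]; linarith
  · nlinarith
  · linarith
  · nlinarith
  · have : (2 - Ju) * ((1 + h) * (1 - nu / 2) + k / 4 - ((1 + h) * (1 - Ju / 2) + k / 4)) +
      ((1 + h) * (1 - Ju / 2) + k / 4) * (nu - Ju) = k / 4 * (nu - Ju) := by ring
    rw [this]
    exact mul_pos (by linarith) (by linarith)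
  · -- k / 4 < Ju (1 - h) / 2
    have : k / 4 < Ju * (1 - h) / 2 := by
      rw [← hk]
      have : 1 < Ju * (3 + h) := by nlinarith
      nlinarith
    nlinarith
  · have : (nu - Ju) * (1 - ((1 + h) * (1 - Ju / 2) + k / 4)) -
      ((1 + h) * (1 - nu / 2) + k / 4 - ((1 + h) * (1 - Ju / 2) + k / 4)) * (1 - Ju) =
      (nu - Ju) * ((1 - h) / 2 - k / 4) := by ring
    rw [this]
    refine mul_pos (by linarith) ?_
    rw [← hk]
    nlinarith
  · have : nu * ((1 + h) * (1 - Ju / 2) + k / 4 - (h + 1)) -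
      ((1 + h) * (1 - nu / 2) + k / 4 - (h + 1)) * Ju = k / 4 * (nu - Ju) := by ring
    rw [this]
    exact mul_pos (by linarith) (by linarith)
  · rw [en]; linarith

/-- the constant block -/
theorem consts {L : ℝ} (hL : 1 < L) : ∃ mm tt x2 : ℝ, 1 < mm ∧ mm < x2 ∧ x2 - 1 < 3 * (mm - 1) ∧
    mm * x2 < tt ∧ (tt - mm) / (mm - 1) < L := by
  obtain ⟨e, he0, he1, he2⟩ : ∃ e : ℝ, 0 < e ∧ e < 1 ∧ 4 * e < L - 1 :=
    ⟨min (1 / 2) ((L - 1) / 8), lt_min (by norm_num) (by linarith),
      lt_of_le_of_lt (min_le_left _ _) (by norm_num), by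
        have := min_le_right (1 / 2) ((L - 1) / 8)
        linarith⟩
  refine ⟨1 + e, (1 + e) * (1 + e + e ^ 2) + e ^ 2, 1 + e + e ^ 2, by linarith, by nlinarith,
    by nlinarith, by nlinarith, ?_⟩
  rw [show (1 + e - 1 : ℝ) = e by ring, div_lt_iff₀ he0]
  have : (1 + e) * (1 + e + e ^ 2) + e ^ 2 - (1 + e) = e * (1 + 3 * e + e ^ 2) := by ring
  rw [this, mul_comm L]
  exact mul_lt_mul_of_pos_left (by nlinarith) he0

theorem exists_slack {p : ℝ} (hp : p < 1) (M : ℕ) : ∃ L : ℝ, 1 < L ∧ L ^ M * p < 1 := by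
  have h1 : Filter.Tendsto (fun x : ℝ => x ^ M * p) (nhds 1) (nhds ((1 : ℝ) ^ M * p)) :=
    ((continuous_pow M).mul continuous_const).tendsto 1
  rw [one_pow, one_mul] at h1
  have h2 := (h1.eventually (gt_mem_nhds hp)).filter_mono (nhdsWithin_le_nhds (s := Set.Ioi 1))
  obtain ⟨L, h3, h4⟩ := (h2.and self_mem_nhdsWithin).exists
  exact ⟨L, h4, h3⟩

variable {S : Slp} {P : ℕ → Bool → ℝ}

theorem val_pos (h : S.WF) (hP : S.IsVal P) : ∀ j ≤ S.N, ∀ k, S.OkPort j k → 0 < P j k := by
  intro j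
  induction j using Nat.strong_induction_on with
  | _ j ih =>
    intro hj k hk
    rcases hk with ⟨rfl, rfl⟩ | ⟨h0, hk⟩
    · rw [hP.1]; norm_num
    · have h1 : 1 ≤ j := by omega
      have hA := ih (S.A j) (h.A_lt j h1 hj) (by have := h.A_lt j h1 hj; omega) _ (h.okA j h1 hj)
      have hB := ih (S.B j) (h.B_lt j h1 hj) (by have := h.B_lt j h1 hj; omega) _ (h.okB j h1 hj)
      have hv := hP.2 j h1 hj
      rcases hk with ⟨ht, rfl⟩ | ⟨ht, rfl⟩ | ht
      · rw [ht] at hv
        simp only at hv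
        rw [hv]
        positivity
      · rw [ht] at hv
        simp only at hv
        rw [hv]
        positivity
      · rw [ht] at hv
        simp only at hv
        cases k
        · rw [hv.2]
          have := hv.1
          positivity
        · exact hv.1

/-- the data -/
noncomputable def dat (S : Slp) (P : ℕ → Bool → ℝ) (L mm tt x2 Ju Jy nu ny : ℝ) : Sk where
  h1 j := match S.ty j with
    | .g => L * (L ^ 4 ^ j * P (S.A j) (S.kA j)) / (1 + L * (L ^ 4 ^ j * P (S.B j) (S.kB j)))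
    | .s => P j true * (L * (L ^ 4 ^ j * P (S.A j) (S.kA j)) / (1 + P j true))
    | .f => L * (L ^ 4 ^ j * P (S.A j) (S.kA j)) * (1 + 1 / (L * (L ^ 4 ^ j * P (S.B j) (S.kB j))))
  h2 j := match S.ty j with
    | .g => L * (L ^ 4 ^ j * P (S.B j) (S.kB j)) *
      (L * (L ^ 4 ^ j * P (S.A j) (S.kA j)) / (1 + L * (L ^ 4 ^ j * P (S.B j) (S.kB j))))
    | .s => L * (L ^ 4 ^ j * P (S.A j) (S.kA j)) / (1 + P j true)
    | .f => 1 / (L * (L ^ 4 ^ j * P (S.B j) (S.kB j)))
  h3 _ := 1
  uK j := L ^ 4 ^ j * P (S.A j) (S.kA j)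
  uL j := L ^ 4 ^ j * P (S.B j) (S.kB j)
  mm := mm
  tt := tt
  x2 := x2
  Ju := Ju
  Jy := Jy
  nu := nu
  ny := ny

theorem rat_le (h : S.WF) (hP : S.IsVal P) {L : ℝ} (hL : 1 < L) (mm tt x2 Ju Jy nu ny : ℝ) {j : ℕ}
    (h1 : 1 ≤ j) (hj : j ≤ S.N) {k : Bool} (hk : S.OkPort j k) :
    (dat S P L mm tt x2 Ju Jy nu ny).rat j k ≤ L ^ (2 * 4 ^ j + 2) * P j k := by
  have hA := val_pos h hP (S.A j) (by have := h.A_lt j h1 hj; omega) _ (h.okA j h1 hj)
  have hB := val_pos h hP (S.B j) (by have := h.B_lt j h1 hj; omega) _ (h.okB j h1 hj)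
  have hv := hP.2 j h1 hj
  have hpw : L ^ (2 * 4 ^ j + 2) = (L * L ^ 4 ^ j) * (L * L ^ 4 ^ j) := by
    rw [pow_add, two_mul, pow_add]; ring
  rw [hpw]
  have hν : 1 < L * L ^ 4 ^ j := by
    have : 1 ≤ L ^ 4 ^ j := one_le_pow₀ hL.le
    nlinarith
  set ν := L * L ^ 4 ^ j with hνd
  set a := P (S.A j) (S.kA j) with ha
  set b := P (S.B j) (S.kB j) with hb
  have e1 : L * (L ^ 4 ^ j * a) = ν * a := by rw [hνd]; ring
  have e2 : L * (L ^ 4 ^ j * b) = ν * b := by rw [hνd]; ring
  have hν0 : 0 < ν := by linarith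
  have hνb : b ≤ ν * b := by nlinarith
  rcases hk with ⟨rfl, _⟩ | ⟨h0, hk⟩
  · omega
  · unfold Sk.rat
    rw [if_neg h0]
    rcases hk with ⟨ht, rfl⟩ | ⟨ht, rfl⟩ | ht
    · rw [ht] at hv
      simp only at hv
      simp only [dat, ht, Bool.false_eq_true, if_false]
      rw [← ha, ← hb, e1, e2, div_one, hv]
      have e3 : ν * b * (ν * a / (1 + ν * b)) = ν * ν * (a * b) / (1 + ν * b) := by ring
      have e4 : ν * ν * (a * b / (1 + b)) = ν * ν * (a * b) / (1 + b) := by ring
      rw [e3, e4]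
      exact div_le_div_of_nonneg_left (by positivity) (by linarith) (by linarith)
    · rw [ht] at hv
      simp only at hv
      simp only [dat, ht, if_true]
      rw [← ha, ← hb, e1, e2, hv]
      have e3 : ν * a * (1 + 1 / (ν * b)) / (1 / (ν * b)) = ν * a * (1 + ν * b) := by
        field_simp
        ring
      rw [e3]
      have : 1 + ν * b ≤ ν * (1 + b) := by nlinarith
      calc ν * a * (1 + ν * b) ≤ ν * a * (ν * (1 + b)) :=
            mul_le_mul_of_nonneg_left this (by positivity)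
        _ = ν * ν * (a * (1 + b)) := by ring
    · rw [ht] at hv
      simp only at hv
      obtain ⟨hc, hv⟩ := hv
      simp only [dat, ht]
      cases k
      · simp only [Bool.false_eq_true, if_false]
        rw [← ha, e1, div_one, hv]
        have e4 : ν * ν * (a / (1 + P j true)) = ν * (ν * a / (1 + P j true)) := by ring
        rw [e4]
        have : 0 < ν * a / (1 + P j true) := by positivity
        nlinarith
      · simp only [if_true]
        rw [← ha, e1]
        have e3 : P j true * (ν * a / (1 + P j true)) / (ν * a / (1 + P j true)) = P j true := by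
          field_simp
        rw [e3]
        have : 1 ≤ ν * ν := by nlinarith
        nlinarith

/-- module R1: data with slack -/
theorem R1 (S : Slp) (h : S.WF) (hs : S.Sat) : ∃ D : Sk, Sk.Ok S D := by
  obtain ⟨P, hP, hlt⟩ := hs
  have hN : 1 ≤ S.N := h.one_le
  have okN : S.OkPort S.N false := Or.inr ⟨by omega, Or.inl ⟨h.last, rfl⟩⟩
  obtain ⟨L, hL, hL2⟩ := exists_slack hlt (2 * 4 ^ S.N + 2)
  obtain ⟨mm, tt, x2, c1, c2, c3, c4, hr⟩ := consts hL
  have hr' := fun Ju Jy nu ny => rat_le h hP hL mm tt x2 Ju Jy nu ny hN le_rfl okN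
  have hpos := val_pos h hP
  have hLp : ∀ m : ℕ, 0 < L ^ m := fun m => by positivity
  have hL0 : 0 < L := by linarith
  have aA : ∀ j, 1 ≤ j → j ≤ S.N → 0 < P (S.A j) (S.kA j) := fun j h1 hj =>
    hpos _ (by have := h.A_lt j h1 hj; omega) _ (h.okA j h1 hj)
  have aB : ∀ j, 1 ≤ j → j ≤ S.N → 0 < P (S.B j) (S.kB j) := fun j h1 hj =>
    hpos _ (by have := h.B_lt j h1 hj; omega) _ (h.okB j h1 hj)
  -- the height of the last block
  have hh0 : 0 < (dat S P L mm tt x2 0 0 0 0).h2 S.N := by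
    simp only [dat, h.last]
    have := aA _ hN le_rfl
    have := aB _ hN le_rfl
    have := hLp (4 ^ S.N)
    positivity
  have hh1 : (dat S P L mm tt x2 0 0 0 0).h2 S.N < 1 := by
    have h5 := hr' 0 0 0 0
    unfold Sk.rat at h5
    rw [if_neg (by omega)] at h5
    simp only [Bool.false_eq_true, if_false] at h5
    have : (dat S P L mm tt x2 0 0 0 0).h3 S.N = 1 := rfl
    rw [this, div_one] at h5
    linarith
  obtain ⟨Ju, Jy, nu, ny, j1, j2, j3, j4, j5, j6, j7, j8, j9, j10, j11, j12⟩ := gadget hh0 hh1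
  have key : ∀ j, 1 ≤ j → j ≤ S.N → ∀ i < j, ∀ k, S.OkPort i k →
      (dat S P L mm tt x2 Ju Jy nu ny).rat i k < L ^ 4 ^ j * P i k := by
    intro j h1 hj i hi k hk
    rcases Nat.eq_zero_or_pos i with rfl | hi0
    · rcases hk with ⟨_, rfl⟩ | ⟨h', _⟩
      · rw [hP.1, mul_one]
        unfold Sk.rat
        rw [if_pos rfl]
        refine hr.trans_le ?_
        exact le_self_pow₀ hL.le (by positivity)
      · exact absurd rfl h'
    · refine (rat_le h hP hL mm tt x2 Ju Jy nu ny hi0 (by omega) hk).trans_lt ?_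
      refine mul_lt_mul_of_pos_right (pow_lt_pow_right₀ hL ?_) (hpos i (by omega) k hk)
      have h6 : 4 ^ (i + 1) ≤ 4 ^ j := Nat.pow_le_pow_right (by norm_num) hi
      have h7 : 4 ^ 1 ≤ 4 ^ i := Nat.pow_le_pow_right (by norm_num) hi0
      rw [pow_succ] at h6
      omega
  have hpp : ∀ j, 1 ≤ j → j ≤ S.N → S.ty j = .s → 0 < P j true := fun j h1 hj ht =>
    hpos j hj true (Or.inr ⟨by omega, Or.inr (Or.inr ht)⟩)
  refine ⟨dat S P L mm tt x2 Ju Jy nu ny, ?_⟩
  constructor
  case h1_pos =>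
    intro j h1 hj
    have := aA j h1 hj
    have := aB j h1 hj
    have := hLp (4 ^ j)
    cases ht : S.ty j
    · simp only [dat, ht]; positivity
    · have := hpp j h1 hj ht
      simp only [dat, ht]; positivity
    · simp only [dat, ht]; positivity
  case h2_pos =>
    intro j h1 hj
    have := aA j h1 hj
    have := aB j h1 hj
    have := hLp (4 ^ j)
    cases ht : S.ty j
    · simp only [dat, ht]; positivity
    · have := hpp j h1 hj ht
      simp only [dat, ht]; positivity
    · simp only [dat, ht]; positivity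
  case h3_pos => intro j _ _; exact one_pos
  case uK_pos => intro j h1 hj; exact mul_pos (hLp _) (aA j h1 hj)
  case uL_pos => intro j h1 hj; exact mul_pos (hLp _) (aB j h1 hj)
  case ratA => intro j h1 hj; exact key j h1 hj _ (h.A_lt j h1 hj) _ (h.okA j h1 hj)
  case ratB => intro j h1 hj; exact key j h1 hj _ (h.B_lt j h1 hj) _ (h.okB j h1 hj)
  case gs =>
    intro j h1 hj ht
    have hA := aA j h1 hj
    have hB := aB j h1 hj
    have h4 := hLp (4 ^ j)
    cases ht' : S.ty j
    · simp only [dat, ht']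
      set K := L ^ 4 ^ j * P (S.A j) (S.kA j) with hK
      set U := L ^ 4 ^ j * P (S.B j) (S.kB j) with hU
      have hK0 : 0 < K := by positivity
      have hU0 : 0 < U := by positivity
      have : L * K / (1 + L * U) + L * U * (L * K / (1 + L * U)) = L * K := by field_simp
      rw [this]
      nlinarith
    · simp only [dat, ht']
      have hc := hpp j h1 hj ht'
      set K := L ^ 4 ^ j * P (S.A j) (S.kA j) with hK
      have hK0 : 0 < K := by positivity
      have : P j true * (L * K / (1 + P j true)) + L * K / (1 + P j true) = L * K := by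
        field_simp
        ring
      rw [this]
      nlinarith
    · exact absurd ht' ht
  case g =>
    intro j h1 hj ht
    have hA := aA j h1 hj
    have hB := aB j h1 hj
    have h4 := hLp (4 ^ j)
    simp only [dat, ht]
    set K := L ^ 4 ^ j * P (S.A j) (S.kA j) with hK
    set U := L ^ 4 ^ j * P (S.B j) (S.kB j) with hU
    have hK0 : 0 < K := by positivity
    have hU0 : 0 < U := by positivity
    have : 0 < L * K / (1 + L * U) := by positivity
    refine mul_lt_mul_of_pos_right ?_ this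
    nlinarith
  case f1 =>
    intro j h1 hj ht
    have hA := aA j h1 hj
    have hB := aB j h1 hj
    have h4 := hLp (4 ^ j)
    simp only [dat, ht]
    set K := L ^ 4 ^ j * P (S.A j) (S.kA j) with hK
    set U := L ^ 4 ^ j * P (S.B j) (S.kB j) with hU
    have hK0 : 0 < K := by positivity
    have hU0 : 0 < U := by positivity
    have e : 1 / (L * U) + 1 = 1 + 1 / (L * U) := by ring
    rw [e]
    refine mul_lt_mul_of_pos_right ?_ (by positivity)
    nlinarith
  case f2 =>
    intro j h1 hj ht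
    have hB := aB j h1 hj
    have h4 := hLp (4 ^ j)
    simp only [dat, ht]
    set U := L ^ 4 ^ j * P (S.B j) (S.kB j) with hU
    have hU0 : 0 < U := by positivity
    rw [mul_one_div, div_lt_one (by positivity)]
    nlinarith
  case c1 => exact c1
  case c2 => exact c2
  case c3 => exact c3
  case c4 => exact c4
  case fin => exact hh1
  case j1 => exact j1
  case j2 => exact j2
  case j3 => exact j3
  case j4 => exact j4
  case j5 => exact j5
  case j6 => exact j6
  case j7 => exact j7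
  case j8 => exact j8
  case j9 => exact j9
  case j10 => exact j10
  case j11 => exact j11
  case j12 => exact j12

end Pool.Agent.helper39.SGE.R
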