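import Pool.Agent.helper39.SGE.Fm
import Pool.Agent.H54.PT.Enc

/-!
# SGE₂ reduces to ETR: decoding of the instances
-/

set_option autoImplicit false

namespace Pool.Agent.helper39.SGE

open Pool.Agent.helper56.SGE Pool.Agent.H54.PT N487b59b3

/-! ### Decoding is the exact inverse of encoding -/

def Strict (α : Type) [N487b59b3 α] : Prop :=
  ∀ (w : List Bool) (a : α), bitDecode w = some a → w = bitEncode a

theorem strict_bool : Strict Bool := by
  intro w a h
  match w, h with
  | [b], h => cases h; rfl

theorem undelimit_eq : ∀ (w a r : List Bool), undelimit w = some (a, r) → w = delimit a ++ r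
  | [], a, r, h => by simp [undelimit] at h
  | false :: rest, a, r, h => by
    simp only [undelimit, Option.some.injEq, Prod.mk.injEq] at h
    obtain ⟨rfl, rfl⟩ := h
    rfl
  | [true], a, r, h => by simp [undelimit] at h
  | true :: b :: input, a, r, h => by
    simp only [undelimit, Option.map_eq_some_iff] at h
    obtain ⟨⟨a', r'⟩, h1, h2⟩ := h
    simp only [Prod.mk.injEq] at h2
    obtain ⟨rfl, rfl⟩ := h2
    rw [undelimit_eq input a' r' h1]
    rfl

theorem blocksAux_eq : ∀ (fuel : ℕ) (w : List Bool) (bs : List (List Bool)),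
    undelimitBlocksAux fuel w = some bs → w = (bs.map delimit).flatten
  | 0, [], bs, h => by
    simp only [undelimitBlocksAux, Option.some.injEq] at h
    subst h; rfl
  | fuel + 1, [], bs, h => by
    simp only [undelimitBlocksAux, Option.some.injEq] at h
    subst h; rfl
  | 0, _ :: _, bs, h => by simp [undelimitBlocksAux] at h
  | fuel + 1, b :: l, bs, h => by
    simp only [undelimitBlocksAux] at h
    rw [Option.bind_eq_some_iff] at h
    obtain ⟨⟨a, r⟩, h1, h2⟩ := h
    simp only [Option.map_eq_some_iff] at h2
    obtain ⟨bs', h3, rfl⟩ := h2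
    rw [undelimit_eq _ _ _ h1, blocksAux_eq fuel _ _ h3]
    simp

theorem strict_prod {α β : Type} [N487b59b3 α] [N487b59b3 β] (ha : Strict α) (hb : Strict β) :
    Strict (α × β) := by
  rintro w ⟨a, b⟩ h
  change (match undelimit w with
    | none => none
    | some (block, rest) =>
      match bitDecode block, bitDecode rest with
      | some a, some b => some (a, b)
      | _, _ => none) = some (a, b) at h
  change w = delimit (bitEncode a) ++ bitEncode b
  cases hu : undelimit w with
  | none => rw [hu] at h; cases h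
  | some p =>
    obtain ⟨bl, r⟩ := p
    rw [hu] at h
    simp only at h
    cases h1 : (bitDecode bl : Option α) with
    | none => rw [h1] at h; cases h
    | some a' =>
      cases h2 : (bitDecode r : Option β) with
      | none => rw [h1, h2] at h; cases h
      | some b' =>
        rw [h1, h2] at h
        simp only [Option.some.injEq, Prod.mk.injEq] at h
        obtain ⟨rfl, rfl⟩ := h
        rw [← ha _ _ h1, ← hb _ _ h2]
        exact undelimit_eq _ _ _ hu

theorem mapM_eq {α : Type} [N487b59b3 α] (ha : Strict α) : ∀ (bs : List (List Bool)) (l : List α),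
    bs.mapM bitDecode = some l → bs = l.map bitEncode
  | [], l, h => by
    simp only [List.mapM_nil] at h
    cases h; rfl
  | b :: bs, l, h => by
    rw [List.mapM_cons] at h
    simp only [Option.bind_eq_bind, Option.pure_def] at h
    rw [Option.bind_eq_some_iff] at h
    obtain ⟨a, h1, h2⟩ := h
    rw [Option.bind_eq_some_iff] at h2
    obtain ⟨l', h3, h4⟩ := h2
    cases h4
    rw [List.map_cons, ← ha _ _ h1, ← mapM_eq ha _ _ h3]

theorem strict_list {α : Type} [N487b59b3 α] (ha : Strict α) : Strict (List α) := by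
  intro w l h
  change (undelimitBlocks w).bind (·.mapM bitDecode) = some l at h
  change w = ((l.map bitEncode).map delimit).flatten
  rw [Option.bind_eq_some_iff] at h
  obtain ⟨bs, h1, h2⟩ := h
  rw [← mapM_eq ha _ _ h2]
  exact blocksAux_eq _ _ _ h1

theorem strict_inst : Strict Inst := strict_list (strict_list (strict_prod strict_bool strict_bool))

/-! ### The word of a table -/

def blk9 (e : Bool × Bool) : List Bool := [true, true, true, e.1, true, false, true, e.2, false]

def rowW (n : ℕ) (e : ℕ → Bool × Bool) : List Bool := (List.range n).flatMap fun j => blk9 (e j)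

def tabW (n : ℕ) (e : ℕ → ℕ → Bool × Bool) : List Bool :=
  (List.range n).flatMap fun i => dl (rowW n (e i)) ++ [false]

def tab (n : ℕ) (e : ℕ → ℕ → Bool × Bool) : Inst :=
  (List.range n).map fun i => (List.range n).map fun j => e i j

theorem encode_tab (n : ℕ) (e : ℕ → ℕ → Bool × Bool) : bitEncode (tab n e) = tabW n e := by
  rw [bitEncode_list, tab, List.flatMap_map]
  unfold tabW
  congr 1
  funext i
  rw [delimit_eq, bitEncode_list, List.flatMap_map]
  rfl

theorem length_rowW (n : ℕ) (e : ℕ → Bool × Bool) : (rowW n e).length = 9 * n := by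
  unfold rowW
  rw [List.length_flatMap]
  have : (List.range n).map (fun j => (blk9 (e j)).length) = (List.range n).map (fun _ => 9) := rfl
  rw [this, List.map_const', List.sum_replicate, List.length_range]
  simp [mul_comm]

theorem length_dl (l : List Bool) : (dl l).length = 2 * l.length := by
  induction l with
  | nil => rfl
  | cons b l ih =>
    have : dl (b :: l) = true :: b :: dl l := rfl
    rw [this]
    simp only [List.length_cons, ih]
    omega

theorem length_tabW (n : ℕ) (e : ℕ → ℕ → Bool × Bool) :
    (tabW n e).length = n * (18 * n + 1) := by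
  unfold tabW
  rw [List.length_flatMap]
  have : (List.range n).map (fun i => (dl (rowW n (e i)) ++ [false]).length) =
      (List.range n).map (fun _ => 18 * n + 1) := by
    congr 1
    funext i
    rw [List.length_append, length_dl, length_rowW]
    simp only [List.length_singleton]
    omega
  rw [this, List.map_const', List.sum_replicate, List.length_range]
  simp

theorem getD_flatMap (f : ℕ → List Bool) (L : ℕ) (hL : ∀ i, (f i).length = L) (n i q : ℕ)
    (hi : i < n) (hq : q < L) :
    ((List.range n).flatMap f).getD (i * L + q) false = (f i).getD q false := by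
  induction n with
  | zero => omega
  | succ n ih =>
    have hlen : ((List.range n).flatMap f).length = n * L := by
      rw [List.length_flatMap]
      have : (List.range n).map (fun i => (f i).length) = (List.range n).map (fun _ => L) := by
        congr 1
        funext i
        exact hL i
      rw [this, List.map_const', List.sum_replicate, List.length_range]
      simp
    rw [List.range_succ, List.flatMap_append]
    by_cases h : i < n
    · rw [List.getD_append _ _ _ _ ?_]
      · exact ih h
      · rw [hlen]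
        calc i * L + q < i * L + L := by omega
          _ = (i + 1) * L := by ring
          _ ≤ n * L := Nat.mul_le_mul_right _ h
    · have : i = n := by omega
      subst this
      rw [List.getD_append_right _ _ _ _ (by rw [hlen]; omega), hlen]
      simp

theorem getD_dl (l : List Bool) (k : ℕ) (hk : k < l.length) :
    (dl l).getD (2 * k) false = true ∧ (dl l).getD (2 * k + 1) false = l.getD k false := by
  induction l generalizing k with
  | nil => simp at hk
  | cons b l ih =>
    have : dl (b :: l) = true :: b :: dl l := rfl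
    rw [this]
    cases k with
    | zero => simp
    | succ k =>
      have h := ih k (by simpa using hk)
      rw [show 2 * (k + 1) = 2 * k + 1 + 1 by ring, show 2 * k + 1 + 1 + 1 = 2 * k + 1 + 1 + 1 from rfl]
      simp only [List.getD_cons_succ]
      exact h

/-- the bit number `p` of the word of a table -/
def expW (n : ℕ) (e : ℕ → ℕ → Bool × Bool) (p : ℕ) : Bool :=
  if p % (18 * n + 1) = 18 * n then false
  else if p % (18 * n + 1) % 2 = 0 then true
  else if p % (18 * n + 1) / 2 % 9 = 3 then (e (p / (18 * n + 1)) (p % (18 * n + 1) / 2 / 9)).1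
  else if p % (18 * n + 1) / 2 % 9 = 7 then (e (p / (18 * n + 1)) (p % (18 * n + 1) / 2 / 9)).2
  else if p % (18 * n + 1) / 2 % 9 = 5 ∨ p % (18 * n + 1) / 2 % 9 = 8 then false
  else true

theorem getD_blk9 (e : Bool × Bool) (r : ℕ) (hr : r < 9) : (blk9 e).getD r false =
    if r = 3 then e.1 else if r = 7 then e.2 else if r = 5 ∨ r = 8 then false else true := by
  interval_cases r <;> rfl

theorem getD_tabW (n : ℕ) (e : ℕ → ℕ → Bool × Bool) (p : ℕ) (hp : p < n * (18 * n + 1)) :
    (tabW n e).getD p false = expW n e p := by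
  have hL : 0 < 18 * n + 1 := by omega
  have hi : p / (18 * n + 1) < n := (Nat.div_lt_iff_lt_mul hL).mpr hp
  have hq : p % (18 * n + 1) < 18 * n + 1 := Nat.mod_lt _ hL
  have h0 : p / (18 * n + 1) * (18 * n + 1) + p % (18 * n + 1) = p := Nat.div_add_mod' _ _
  have h1 := getD_flatMap (fun i => dl (rowW n (e i)) ++ [false]) (18 * n + 1) (fun i => by
    rw [List.length_append, length_dl, length_rowW]
    simp only [List.length_singleton]
    omega) n (p / (18 * n + 1)) (p % (18 * n + 1)) hi hq
  rw [h0] at h1
  unfold tabW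
  rw [h1]
  unfold expW
  set q := p % (18 * n + 1) with hqd
  set i := p / (18 * n + 1) with hid
  have hlen : (dl (rowW n (e i))).length = 18 * n := by
    rw [length_dl, length_rowW]; ring
  by_cases c1 : q = 18 * n
  · rw [if_pos c1, List.getD_append_right _ _ _ _ (by rw [hlen, c1]), hlen, c1]
    simp
  · rw [if_neg c1, List.getD_append _ _ _ _ (by rw [hlen]; omega)]
    have hk : q / 2 < 9 * n := by omega
    have h2 := getD_dl (rowW n (e i)) (q / 2) (by rw [length_rowW]; exact hk)
    by_cases c2 : q % 2 = 0
    · rw [if_pos c2]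
      have : 2 * (q / 2) = q := by omega
      rw [this] at h2
      exact h2.1
    · rw [if_neg c2]
      have : 2 * (q / 2) + 1 = q := by omega
      rw [this] at h2
      rw [h2.2]
      have hj : q / 2 / 9 < n := (Nat.div_lt_iff_lt_mul (by norm_num)).mpr (by omega)
      have h3 := getD_flatMap (fun j => blk9 (e i j)) 9 (fun _ => rfl) n (q / 2 / 9) (q / 2 % 9) hj
        (Nat.mod_lt _ (by norm_num))
      rw [show q / 2 / 9 * 9 + q / 2 % 9 = q / 2 by omega] at h3
      unfold rowW
      rw [h3, getD_blk9 _ _ (Nat.mod_lt _ (by norm_num))]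

theorem ext_getD {l l' : List Bool} (h : l.length = l'.length)
    (h' : ∀ p < l.length, l.getD p false = l'.getD p false) : l = l' := by
  refine List.ext_getElem h fun p h1 h2 => ?_
  have := h' p h1
  rwa [List.getD_eq_getElem _ _ h1, List.getD_eq_getElem _ _ h2] at this

/-! ### Reading a table from a word -/

/-- number of rows -/
def nn (x : List Bool) : ℕ :=
  ((Finset.range x.length).filter fun i => (i + 1) * (18 * (i + 1) + 1) ≤ x.length).card

theorem nn_eq {x : List Bool} {n : ℕ} (h : x.length = n * (18 * n + 1)) : nn x = n := by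
  unfold nn
  have : (Finset.range x.length).filter (fun i => (i + 1) * (18 * (i + 1) + 1) ≤ x.length) =
      Finset.range n := by
    ext i
    simp only [Finset.mem_filter, Finset.mem_range]
    rw [h]
    constructor
    · rintro ⟨_, h2⟩
      by_contra hi
      push Not at hi
      have h3 : (n + 1) * (18 * (n + 1) + 1) ≤ (i + 1) * (18 * (i + 1) + 1) :=
        Nat.mul_le_mul (by omega) (by omega)
      nlinarith
    · intro hi
      have h3 : (i + 1) * (18 * (i + 1) + 1) ≤ n * (18 * n + 1) :=
        Nat.mul_le_mul (by omega) (by omega)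
      refine ⟨?_, h3⟩
      nlinarith
  rw [this, Finset.card_range]

/-- position of the bit `k` of the entry `(i, j)` -/
def pos (n k i j : ℕ) : ℕ := i * (18 * n + 1) + (2 * (9 * j + (3 + 4 * k)) + 1)

/-- the entries -/
def ent (x : List Bool) (i j : ℕ) : Bool × Bool :=
  (x.getD (pos (nn x) 0 i j) false, x.getD (pos (nn x) 1 i j) false)

def Valid (x : List Bool) : Prop :=
  x.length = nn x * (18 * nn x + 1) ∧ ∀ p < x.length,
    (x.getD p false = true ↔
      ¬ (p % (18 * nn x + 1) = 18 * nn x) ∧ (p % (18 * nn x + 1) % 2 = 0 ∨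
        ((p % (18 * nn x + 1) / 2 % 9 = 3 ∨ p % (18 * nn x + 1) / 2 % 9 = 7) ∧
          x.getD p false = true) ∨
        ¬ (p % (18 * nn x + 1) / 2 % 9 = 3 ∨ p % (18 * nn x + 1) / 2 % 9 = 7 ∨
          p % (18 * nn x + 1) / 2 % 9 = 5 ∨ p % (18 * nn x + 1) / 2 % 9 = 8)))

theorem pos_div {n k i j : ℕ} (hk : k < 2) (hj : j < n) : pos n k i j / (18 * n + 1) = i ∧
    pos n k i j % (18 * n + 1) = 2 * (9 * j + (3 + 4 * k)) + 1 := by
  have h1 : 2 * (9 * j + (3 + 4 * k)) + 1 < 18 * n + 1 := by omega
  unfold pos
  constructor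
  · rw [mul_comm, Nat.mul_add_div (by omega), Nat.div_eq_of_lt h1, add_zero]
  · rw [Nat.mul_add_mod', Nat.mod_eq_of_lt h1]

theorem valid_iff (x : List Bool) : Valid x ↔ x = bitEncode (tab (nn x) (ent x)) := by
  rw [encode_tab]
  constructor
  · rintro ⟨h1, h2⟩
    refine ext_getD (by rw [length_tabW]; exact h1) fun p hp => ?_
    rw [getD_tabW _ _ _ (by rw [← h1]; exact hp)]
    have h3 := h2 p hp
    have hL : 0 < 18 * nn x + 1 := by omega
    have h0 : p / (18 * nn x + 1) * (18 * nn x + 1) + p % (18 * nn x + 1) = p :=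
      Nat.div_add_mod' _ _
    have hi : p / (18 * nn x + 1) < nn x := (Nat.div_lt_iff_lt_mul hL).mpr (by rw [← h1]; exact hp)
    unfold expW
    by_cases c1 : p % (18 * nn x + 1) = 18 * nn x
    · rw [if_pos c1]
      rw [← Bool.not_eq_true, h3]
      tauto
    · rw [if_neg c1]
      by_cases c2 : p % (18 * nn x + 1) % 2 = 0
      · rw [if_pos c2, h3]
        tauto
      · rw [if_neg c2]
        have e : p = p / (18 * nn x + 1) * (18 * nn x + 1) +
          (2 * (9 * (p % (18 * nn x + 1) / 2 / 9) + p % (18 * nn x + 1) / 2 % 9) + 1) := by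
          omega
        by_cases c3 : p % (18 * nn x + 1) / 2 % 9 = 3
        · rw [if_pos c3]
          unfold ent pos
          simp only
          rw [c3] at e
          rw [show 3 + 4 * 0 = 3 from rfl, ← e]
        · rw [if_neg c3]
          by_cases c4 : p % (18 * nn x + 1) / 2 % 9 = 7
          · rw [if_pos c4]
            unfold ent pos
            simp only
            rw [c4] at e
            rw [show 3 + 4 * 1 = 7 from rfl, ← e]
          · rw [if_neg c4]
            by_cases c5 : p % (18 * nn x + 1) / 2 % 9 = 5 ∨ p % (18 * nn x + 1) / 2 % 9 = 8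
            · rw [if_pos c5]
              rw [← Bool.not_eq_true, h3]
              tauto
            · rw [if_neg c5, h3]
              tauto
  · intro h
    have h1 : x.length = nn x * (18 * nn x + 1) := by
      conv_lhs => rw [h, length_tabW]
    refine ⟨h1, fun p hp => ?_⟩
    have h2 : x.getD p false = expW (nn x) (ent x) p := by
      conv_lhs => rw [h]
      exact getD_tabW _ _ _ (by rw [← h1]; exact hp)
    unfold expW at h2
    by_cases c1 : p % (18 * nn x + 1) = 18 * nn x
    · rw [if_pos c1] at h2
      rw [h2]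
      simp [c1]
    · rw [if_neg c1] at h2
      by_cases c2 : p % (18 * nn x + 1) % 2 = 0
      · rw [if_pos c2] at h2
        rw [h2]
        simp [c1, c2]
      · rw [if_neg c2] at h2
        by_cases c3 : p % (18 * nn x + 1) / 2 % 9 = 3
        · simp [c1, c3]
          omega
        · rw [if_neg c3] at h2
          by_cases c4 : p % (18 * nn x + 1) / 2 % 9 = 7
          · simp [c1, c4]
            omega
          · rw [if_neg c4] at h2
            by_cases c5 : p % (18 * nn x + 1) / 2 % 9 = 5 ∨ p % (18 * nn x + 1) / 2 % 9 = 8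
            · rw [if_pos c5] at h2
              rw [h2]
              simp only [Bool.false_eq_true, false_iff]
              tauto
            · rw [if_neg c5] at h2
              rw [h2]
              tauto

theorem square_tab (n : ℕ) (e : ℕ → ℕ → Bool × Bool) : Square (tab n e) := by
  intro r hr
  unfold tab at hr ⊢
  rw [List.mem_map] at hr
  obtain ⟨i, _, rfl⟩ := hr
  simp

theorem tab_of_square (M : Inst) (h : Square M) : M = tab M.length (entry M) := by
  unfold tab
  refine List.ext_getElem (by simp) fun i h1 h2 => ?_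
  have h3 : M[i].length = M.length := h _ (List.getElem_mem h1)
  rw [List.getElem_map, List.getElem_range]
  refine List.ext_getElem (by simp [h3]) fun j h4 h5 => ?_
  rw [List.getElem_map, List.getElem_range]
  unfold entry
  rw [List.getD_eq_getElem _ _ h1, List.getD_eq_getElem _ _ h4]

theorem valid_of_square (M : Inst) (h : Square M) :
    Valid (bitEncode M) ∧ nn (bitEncode M) = M.length := by
  have hM := tab_of_square M h
  set n := M.length with hn
  have h1 : (bitEncode M).length = n * (18 * n + 1) := by
    conv_lhs => rw [hM]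
    rw [encode_tab, length_tabW]
  have h2 : nn (bitEncode M) = n := nn_eq h1
  refine ⟨?_, h2⟩
  rw [valid_iff, h2]
  have h3 : ∀ i < n, ∀ j < n, ent (bitEncode M) i j = entry M i j := by
    intro i hi j hj
    unfold ent
    rw [h2]
    have key : ∀ k < 2, pos n k i j < n * (18 * n + 1) := by
      intro k hk
      unfold pos
      calc i * (18 * n + 1) + (2 * (9 * j + (3 + 4 * k)) + 1) < i * (18 * n + 1) + (18 * n + 1) := by
            omega
        _ = (i + 1) * (18 * n + 1) := by ring
        _ ≤ n * (18 * n + 1) := Nat.mul_le_mul_right _ hi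
    have g0 : (bitEncode M).getD (pos n 0 i j) false = (entry M i j).1 := by
      conv_lhs => rw [hM]
      rw [encode_tab, getD_tabW _ _ _ (key 0 (by norm_num))]
      unfold expW
      obtain ⟨a1, a2⟩ := pos_div (n := n) (k := 0) (i := i) (j := j) (by norm_num) hj
      rw [a1, a2]
      rw [if_neg (by omega), if_neg (by omega), if_pos (by omega)]
      congr 2
      omega
    have g1 : (bitEncode M).getD (pos n 1 i j) false = (entry M i j).2 := by
      conv_lhs => rw [hM]
      rw [encode_tab, getD_tabW _ _ _ (key 1 (by norm_num))]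
      unfold expW
      obtain ⟨a1, a2⟩ := pos_div (n := n) (k := 1) (i := i) (j := j) (by norm_num) hj
      rw [a1, a2]
      rw [if_neg (by omega), if_neg (by omega), if_neg (by omega), if_pos (by omega)]
      congr 2
      omega
    rw [g0, g1]
  have h4 : tab n (ent (bitEncode M)) = tab n (entry M) := by
    unfold tab
    refine List.map_congr_left fun i hi => List.map_congr_left fun j hj => ?_
    exact h3 i (List.mem_range.mp hi) j (List.mem_range.mp hj)
  rw [h4, ← hM]

/-! ### The problem -/

/-- adjacency read from the word -/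
def adjX (x : List Bool) (k i j : ℕ) : Prop :=
  i ≠ j ∧ (x.getD (pos (nn x) k i j) false = true ∨ x.getD (pos (nn x) k j i) false = true)

/-- the quadruples -/
def QX (x : List Bool) (u v u' v' : ℕ) : Prop :=
  u ≠ u' ∧ u ≠ v' ∧ v ≠ u' ∧ v ≠ v' ∧ ((u = v ∧ u' = v') ∨
    (u = v ∧ (adjX x 0 u' v' ∨ adjX x 1 u' v')) ∨
    (adjX x 0 u v ∧ adjX x 0 u' v') ∨ (adjX x 1 u v ∧ adjX x 1 u' v'))

theorem entry_tab {n : ℕ} (e : ℕ → ℕ → Bool × Bool) {i j : ℕ} (hi : i < n) (hj : j < n) :
    entry (tab n e) i j = e i j := by
  have h1 : (tab n e).getD i [] = (List.range n).map fun j => e i j := by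
    unfold tab
    rw [List.getD_eq_getElem _ _ (by simpa using hi), List.getElem_map, List.getElem_range]
  unfold entry
  rw [h1, List.getD_eq_getElem _ _ (by simpa using hj), List.getElem_map, List.getElem_range]

theorem adj_tab (x : List Bool) (k : Fin 2) (i j : Fin (tab (nn x) (ent x)).length) :
    (graphOf (tab (nn x) (ent x)) k).Adj i j ↔ adjX x k i j := by
  have hi : (i : ℕ) < nn x := by have := i.2; simpa [tab] using this
  have hj : (j : ℕ) < nn x := by have := j.2; simpa [tab] using this
  change (i ≠ j ∧ (bit k (entry _ i j) = true ∨ bit k (entry _ j i) = true)) ↔ _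
  rw [entry_tab _ hi hj, entry_tab _ hj hi]
  have h1 : i ≠ j ↔ (i : ℕ) ≠ (j : ℕ) := by rw [Ne, Fin.ext_iff]
  rw [h1]
  generalize (i : ℕ) = i' at *
  generalize (j : ℕ) = j' at *
  unfold adjX bit ent
  fin_cases k <;> simp

theorem sge_tab (x : List Bool) : (∃ p, IsSGE (graphOf (tab (nn x) (ent x))) p) ↔
    ∃ P : ℕ → Pt, ∀ u < nn x, ∀ v < nn x, ∀ u' < nn x, ∀ v' < nn x, QX x u v u' v' →
      Disjoint (segment ℝ (P u) (P v)) (segment ℝ (P u') (P v')) := by
  have hlen : (tab (nn x) (ent x)).length = nn x := by simp [tab]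
  have hQ : ∀ u v u' v' : Fin (tab (nn x) (ent x)).length,
      QG (graphOf (tab (nn x) (ent x))) u v u' v' ↔ QX x u v u' v' := by
    intro u v u' v'
    unfold QG QX
    simp only [adj_tab, Fin.exists_fin_two, Ne, Fin.ext_iff]
    constructor
    · rintro ⟨h1, h2, h3, h4, h5⟩
      refine ⟨h1, h2, h3, h4, ?_⟩
      rcases h5 with h | ⟨h, h' | h'⟩ | ⟨h, h'⟩ | ⟨h, h'⟩
      · exact Or.inl h
      · exact Or.inr (Or.inl ⟨h, Or.inl h'⟩)
      · exact Or.inr (Or.inl ⟨h, Or.inr h'⟩)
      · exact Or.inr (Or.inr (Or.inl ⟨h, h'⟩))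
      · exact Or.inr (Or.inr (Or.inr ⟨h, h'⟩))
    · rintro ⟨h1, h2, h3, h4, h5⟩
      refine ⟨h1, h2, h3, h4, ?_⟩
      rcases h5 with h | ⟨h, h' | h'⟩ | ⟨h, h'⟩ | ⟨h, h'⟩
      · exact Or.inl h
      · exact Or.inr (Or.inl ⟨h, Or.inl h'⟩)
      · exact Or.inr (Or.inl ⟨h, Or.inr h'⟩)
      · exact Or.inr (Or.inr (Or.inl ⟨h, h'⟩))
      · exact Or.inr (Or.inr (Or.inr ⟨h, h'⟩))
  constructor
  · rintro ⟨p, hp⟩
    rw [isSGE_iff] at hp
    refine ⟨fun i => if h : i < (tab (nn x) (ent x)).length then p ⟨i, h⟩ else 0,
      fun u hu v hv u' hu' v' hv' h => ?_⟩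
    rw [← hlen] at hu hv hu' hv'
    beta_reduce
    rw [dif_pos hu, dif_pos hv, dif_pos hu', dif_pos hv']
    exact hp _ _ _ _ ((hQ ⟨u, hu⟩ ⟨v, hv⟩ ⟨u', hu'⟩ ⟨v', hv'⟩).mpr h)
  · rintro ⟨P, hP⟩
    refine ⟨fun i => P i, (isSGE_iff _ _).mpr fun u v u' v' h => ?_⟩
    exact hP u (lt_of_lt_of_eq u.2 hlen) v (lt_of_lt_of_eq v.2 hlen) u'
      (lt_of_lt_of_eq u'.2 hlen) v' (lt_of_lt_of_eq v'.2 hlen) ((hQ _ _ _ _).mp h)

theorem SGE2_iff (x : List Bool) : SGE2 x = true ↔ Valid x ∧ ∃ P : ℕ → Pt, ∀ u < nn x,
    ∀ v < nn x, ∀ u' < nn x, ∀ v' < nn x, QX x u v u' v' →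
      Disjoint (segment ℝ (P u) (P v)) (segment ℝ (P u') (P v')) := by
  classical
  rw [← sge_tab]
  unfold SGE2
  rw [decide_eq_true_iff]
  constructor
  · rintro ⟨M, hM, hs, p, hp⟩
    have hx := strict_inst x M hM
    obtain ⟨h1, h2⟩ := valid_of_square M hs
    rw [← hx] at h1 h2
    refine ⟨h1, ?_⟩
    have h3 := (valid_iff x).mp h1
    have h4 : tab (nn x) (ent x) = M := bitEncode_injective (h3.symm.trans hx)
    rw [h4]
    exact ⟨p, hp⟩
  · rintro ⟨h1, h2⟩
    have h3 := (valid_iff x).mp h1
    refine ⟨tab (nn x) (ent x), ?_, square_tab _ _, h2⟩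
    conv_lhs => rw [h3]
    exact bitDecode_bitEncode _

end Pool.Agent.helper39.SGE
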