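import Pool.Agent.helper39.SGE.Geo

/-!
# SGE₂ reduces to ETR: the formula, and unique decoding of formulas
-/

set_option autoImplicit false

namespace Pool.Agent.helper39.SGE

open Pool.Agent.helper56.SGE

/-! ### Unique decoding -/

theorem letter_length (k : ℕ) : (letter k).length = 4 := rfl

theorem letter_append {a b : ℕ} {r r' : List Bool} (h : letter a ++ r = letter b ++ r') :
    letter a = letter b ∧ r = r' :=
  List.append_inj h rfl

theorem letter_inj {a b : ℕ} (ha : a < 16) (hb : b < 16) (h : letter a = letter b) : a = b := by
  interval_cases a <;> interval_cases b <;> first | rfl | (revert h; decide)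

theorem bits_code_inj : ∀ (l l' : List Bool) {r r' : List Bool},
    l.flatMap (fun b => letter (if b then 2 else 1)) ++ (letter 0 ++ r) =
      l'.flatMap (fun b => letter (if b then 2 else 1)) ++ (letter 0 ++ r') → l = l' ∧ r = r'
  | [], [], r, r', h => ⟨rfl, (letter_append h).2⟩
  | [], b :: l', r, r', h => by
    rw [List.flatMap_nil, List.nil_append, List.flatMap_cons, List.append_assoc] at h
    have := (letter_append h).1
    exfalso
    revert this
    cases b <;> decide
  | b :: l, [], r, r', h => by
    rw [List.flatMap_nil, List.nil_append, List.flatMap_cons, List.append_assoc] at h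
    have := (letter_append h).1
    exfalso
    revert this
    cases b <;> decide
  | b :: l, b' :: l', r, r', h => by
    rw [List.flatMap_cons, List.flatMap_cons, List.append_assoc, List.append_assoc] at h
    obtain ⟨h1, h2⟩ := letter_append h
    obtain ⟨h3, h4⟩ := bits_code_inj l l' h2
    refine ⟨?_, h4⟩
    rw [h3]
    congr 1
    revert h1
    cases b <;> cases b' <;> decide

theorem bits_inj {n m : ℕ} (h : n.bits = m.bits) : n = m := by
  induction n using Nat.strong_induction_on generalizing m with
  | _ n ih =>
    rcases Nat.eq_zero_or_pos n with rfl | hn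
    · by_contra hm
      have hm' : m ≠ 0 := fun h' => hm h'.symm
      rw [Nat.zero_bits] at h
      have := Nat.size_eq_bits_len m
      rw [← h, List.length_nil] at this
      exact hm' (Nat.size_eq_zero.mp this.symm)
    · rcases Nat.eq_zero_or_pos m with rfl | hm
      · rw [Nat.zero_bits] at h
        have := Nat.size_eq_bits_len n
        rw [h, List.length_nil] at this
        exact Nat.size_eq_zero.mp this.symm
      · have e : ∀ k : ℕ, 0 < k → k.bits = k.bodd :: k.div2.bits := by
          intro k hk
          conv_lhs => rw [← Nat.bit_bodd_div2 k]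
          refine Nat.bits_append_bit _ _ fun h0 => ?_
          by_contra hb
          rw [Bool.not_eq_true] at hb
          have := Nat.bit_bodd_div2 k
          rw [h0, hb] at this
          simp at this
          omega
        rw [e n hn, e m hm] at h
        injection h with h1 h2
        have h3 := ih n.div2 (by rw [Nat.div2_val]; omega) h2
        rw [← Nat.bit_bodd_div2 n, ← Nat.bit_bodd_div2 m, h1, h3]

theorem numCode_inj {n m : ℕ} {r r' : List Bool} (h : numCode n ++ r = numCode m ++ r') :
    n = m ∧ r = r' := by
  unfold numCode at h
  rw [List.append_assoc, List.append_assoc] at h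
  obtain ⟨h1, h2⟩ := bits_code_inj _ _ h
  exact ⟨bits_inj h1, h2⟩

theorem Tm.code_inj : ∀ (s t : Tm) {r r' : List Bool}, s.code ++ r = t.code ++ r' →
    s = t ∧ r = r' := by
  intro s
  induction s with
  | var i =>
    intro t r r' h
    cases t with
    | var j =>
      simp only [Tm.code, List.append_assoc] at h
      obtain ⟨h1, h2⟩ := numCode_inj (letter_append h).2
      exact ⟨by rw [h1], h2⟩
    | num j => simp only [Tm.code, List.append_assoc] at h; exact absurd (letter_append h).1 (by decide)
    | add a b => simp only [Tm.code, List.append_assoc] at h; exact absurd (letter_append h).1 (by decide)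
    | sub a b => simp only [Tm.code, List.append_assoc] at h; exact absurd (letter_append h).1 (by decide)
    | mul a b => simp only [Tm.code, List.append_assoc] at h; exact absurd (letter_append h).1 (by decide)
  | num i =>
    intro t r r' h
    cases t with
    | num j =>
      simp only [Tm.code, List.append_assoc] at h
      obtain ⟨h1, h2⟩ := numCode_inj (letter_append h).2
      exact ⟨by rw [h1], h2⟩
    | var j => simp only [Tm.code, List.append_assoc] at h; exact absurd (letter_append h).1 (by decide)
    | add a b => simp only [Tm.code, List.append_assoc] at h; exact absurd (letter_append h).1 (by decide)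
    | sub a b => simp only [Tm.code, List.append_assoc] at h; exact absurd (letter_append h).1 (by decide)
    | mul a b => simp only [Tm.code, List.append_assoc] at h; exact absurd (letter_append h).1 (by decide)
  | add a b iha ihb =>
    intro t r r' h
    cases t with
    | add c d =>
      simp only [Tm.code, List.append_assoc] at h
      obtain ⟨h1, h2⟩ := iha c (letter_append h).2
      obtain ⟨h3, h4⟩ := ihb d h2
      exact ⟨by rw [h1, h3], h4⟩
    | var j => simp only [Tm.code, List.append_assoc] at h; exact absurd (letter_append h).1 (by decide)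
    | num j => simp only [Tm.code, List.append_assoc] at h; exact absurd (letter_append h).1 (by decide)
    | sub a b => simp only [Tm.code, List.append_assoc] at h; exact absurd (letter_append h).1 (by decide)
    | mul a b => simp only [Tm.code, List.append_assoc] at h; exact absurd (letter_append h).1 (by decide)
  | sub a b iha ihb =>
    intro t r r' h
    cases t with
    | sub c d =>
      simp only [Tm.code, List.append_assoc] at h
      obtain ⟨h1, h2⟩ := iha c (letter_append h).2
      obtain ⟨h3, h4⟩ := ihb d h2
      exact ⟨by rw [h1, h3], h4⟩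
    | var j => simp only [Tm.code, List.append_assoc] at h; exact absurd (letter_append h).1 (by decide)
    | num j => simp only [Tm.code, List.append_assoc] at h; exact absurd (letter_append h).1 (by decide)
    | add a b => simp only [Tm.code, List.append_assoc] at h; exact absurd (letter_append h).1 (by decide)
    | mul a b => simp only [Tm.code, List.append_assoc] at h; exact absurd (letter_append h).1 (by decide)
  | mul a b iha ihb =>
    intro t r r' h
    cases t with
    | mul c d =>
      simp only [Tm.code, List.append_assoc] at h
      obtain ⟨h1, h2⟩ := iha c (letter_append h).2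
      obtain ⟨h3, h4⟩ := ihb d h2
      exact ⟨by rw [h1, h3], h4⟩
    | var j => simp only [Tm.code, List.append_assoc] at h; exact absurd (letter_append h).1 (by decide)
    | num j => simp only [Tm.code, List.append_assoc] at h; exact absurd (letter_append h).1 (by decide)
    | add a b => simp only [Tm.code, List.append_assoc] at h; exact absurd (letter_append h).1 (by decide)
    | sub a b => simp only [Tm.code, List.append_assoc] at h; exact absurd (letter_append h).1 (by decide)

theorem Fml.code_inj : ∀ (s t : Fml) {r r' : List Bool}, s.code ++ r = t.code ++ r' →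
    s = t ∧ r = r' := by
  intro s
  induction s with
  | lt a b =>
    intro t r r' h
    cases t with
    | lt c d =>
      simp only [Fml.code, List.append_assoc] at h
      obtain ⟨h1, h2⟩ := Tm.code_inj a c (letter_append h).2
      obtain ⟨h3, h4⟩ := Tm.code_inj b d h2
      exact ⟨by rw [h1, h3], h4⟩
    | eq c d => simp only [Fml.code, List.append_assoc] at h; exact absurd (letter_append h).1 (by decide)
    | not c => simp only [Fml.code, List.append_assoc] at h; exact absurd (letter_append h).1 (by decide)
    | and c d => simp only [Fml.code, List.append_assoc] at h; exact absurd (letter_append h).1 (by decide)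
    | or c d => simp only [Fml.code, List.append_assoc] at h; exact absurd (letter_append h).1 (by decide)
  | eq a b =>
    intro t r r' h
    cases t with
    | eq c d =>
      simp only [Fml.code, List.append_assoc] at h
      obtain ⟨h1, h2⟩ := Tm.code_inj a c (letter_append h).2
      obtain ⟨h3, h4⟩ := Tm.code_inj b d h2
      exact ⟨by rw [h1, h3], h4⟩
    | lt c d => simp only [Fml.code, List.append_assoc] at h; exact absurd (letter_append h).1 (by decide)
    | not c => simp only [Fml.code, List.append_assoc] at h; exact absurd (letter_append h).1 (by decide)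
    | and c d => simp only [Fml.code, List.append_assoc] at h; exact absurd (letter_append h).1 (by decide)
    | or c d => simp only [Fml.code, List.append_assoc] at h; exact absurd (letter_append h).1 (by decide)
  | not a iha =>
    intro t r r' h
    cases t with
    | not c =>
      simp only [Fml.code, List.append_assoc] at h
      obtain ⟨h1, h2⟩ := iha c (letter_append h).2
      exact ⟨by rw [h1], h2⟩
    | lt c d => simp only [Fml.code, List.append_assoc] at h; exact absurd (letter_append h).1 (by decide)
    | eq c d => simp only [Fml.code, List.append_assoc] at h; exact absurd (letter_append h).1 (by decide)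
    | and c d => simp only [Fml.code, List.append_assoc] at h; exact absurd (letter_append h).1 (by decide)
    | or c d => simp only [Fml.code, List.append_assoc] at h; exact absurd (letter_append h).1 (by decide)
  | and a b iha ihb =>
    intro t r r' h
    cases t with
    | and c d =>
      simp only [Fml.code, List.append_assoc] at h
      obtain ⟨h1, h2⟩ := iha c (letter_append h).2
      obtain ⟨h3, h4⟩ := ihb d h2
      exact ⟨by rw [h1, h3], h4⟩
    | lt c d => simp only [Fml.code, List.append_assoc] at h; exact absurd (letter_append h).1 (by decide)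
    | eq c d => simp only [Fml.code, List.append_assoc] at h; exact absurd (letter_append h).1 (by decide)
    | not c => simp only [Fml.code, List.append_assoc] at h; exact absurd (letter_append h).1 (by decide)
    | or c d => simp only [Fml.code, List.append_assoc] at h; exact absurd (letter_append h).1 (by decide)
  | or a b iha ihb =>
    intro t r r' h
    cases t with
    | or c d =>
      simp only [Fml.code, List.append_assoc] at h
      obtain ⟨h1, h2⟩ := iha c (letter_append h).2
      obtain ⟨h3, h4⟩ := ihb d h2
      exact ⟨by rw [h1, h3], h4⟩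
    | lt c d => simp only [Fml.code, List.append_assoc] at h; exact absurd (letter_append h).1 (by decide)
    | eq c d => simp only [Fml.code, List.append_assoc] at h; exact absurd (letter_append h).1 (by decide)
    | not c => simp only [Fml.code, List.append_assoc] at h; exact absurd (letter_append h).1 (by decide)
    | and c d => simp only [Fml.code, List.append_assoc] at h; exact absurd (letter_append h).1 (by decide)

theorem Fml.code_ne_nil (s : Fml) : s.code ≠ [] := by
  cases s <;> simp [Fml.code, letter]

theorem ETR_nil : ETR [] = false := by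
  unfold ETR
  rw [decide_eq_false_iff_not]
  rintro ⟨φ, h, _⟩
  exact Fml.code_ne_nil φ h

theorem ETR_code (φ : Fml) : ETR φ.code = true ↔ ∃ x : ℕ → ℝ, φ.holds x := by
  classical
  unfold ETR
  rw [decide_eq_true_iff]
  constructor
  · rintro ⟨ψ, h, hx⟩
    have := (Fml.code_inj ψ φ (r := []) (r' := []) (by rw [h])).1
    exact this ▸ hx
  · intro hx
    exact ⟨φ, rfl, hx⟩

/-! ### The formula -/

/-- the polynomial `α x_i + β y_i` -/
def lin (i t : ℕ) : Tm :=
  .add (.mul (.var t) (.var (2 * i))) (.mul (.var (t + 1)) (.var (2 * i + 1)))

/-- the line with the coefficients in the variables `t, t + 1, t + 2` separates the points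
`i, j` from the points `k, l` -/
def sepF (i j k l t : ℕ) : Fml :=
  .and (.lt (lin i t) (.var (t + 2))) (.and (.lt (lin j t) (.var (t + 2)))
    (.and (.lt (.var (t + 2)) (lin k t)) (.lt (.var (t + 2)) (lin l t))))

def tru : Fml := .eq (.num 0) (.num 0)

def conj (L : List Fml) : Fml := L.foldr .and tru

theorem conj_holds (L : List Fml) (x : ℕ → ℝ) : (conj L).holds x ↔ ∀ φ ∈ L, φ.holds x := by
  induction L with
  | nil => simp [conj, tru, Fml.holds]
  | cons φ L ih =>
    have : conj (φ :: L) = .and φ (conj L) := rfl
    rw [this, Fml.holds, ih]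
    simp

theorem conj_code (L : List Fml) :
    (conj L).code = L.flatMap (fun φ => letter 11 ++ φ.code) ++ tru.code := by
  induction L with
  | nil => rfl
  | cons φ L ih =>
    have : conj (φ :: L) = .and φ (conj L) := rfl
    rw [this, Fml.code, ih]
    simp

/-- points read from the variables -/
def pt (x : ℕ → ℝ) (i : ℕ) : Pt := (x (2 * i), x (2 * i + 1))

theorem sepF_holds (i j k l t : ℕ) (x : ℕ → ℝ) : (sepF i j k l t).holds x ↔
    SepC (pt x i) (pt x j) (pt x k) (pt x l) (x t) (x (t + 1)) (x (t + 2)) := by
  simp only [sepF, Fml.holds, Tm.val, lin, SepC, pt]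

/-- number of a quadruple -/
def idx (n u v u' v' : ℕ) : ℕ := ((u * n + v) * n + u') * n + v'

/-- the formula for `n` vertices and a set of quadruples -/
def listF (n : ℕ) (Q : ℕ → ℕ → ℕ → ℕ → Prop) [∀ a b c d, Decidable (Q a b c d)] : List Fml :=
  (List.range n).flatMap fun u => (List.range n).flatMap fun v =>
    (List.range n).flatMap fun u' => (List.range n).flatMap fun v' =>
      if Q u v u' v' then [sepF u v u' v' (2 * n + 3 * idx n u v u' v')] else []

theorem mem_listF (n : ℕ) (Q : ℕ → ℕ → ℕ → ℕ → Prop) [∀ a b c d, Decidable (Q a b c d)]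
    (φ : Fml) : φ ∈ listF n Q ↔ ∃ u < n, ∃ v < n, ∃ u' < n, ∃ v' < n, Q u v u' v' ∧
      φ = sepF u v u' v' (2 * n + 3 * idx n u v u' v') := by
  simp only [listF, List.mem_flatMap, List.mem_range]
  constructor
  · rintro ⟨u, hu, v, hv, u', hu', v', hv', h⟩
    split_ifs at h with hQ
    · exact ⟨u, hu, v, hv, u', hu', v', hv', hQ, by simpa using h⟩
    · simp at h
  · rintro ⟨u, hu, v, hv, u', hu', v', hv', hQ, h⟩
    refine ⟨u, hu, v, hv, u', hu', v', hv', ?_⟩
    rw [if_pos hQ, h]
    simp

theorem idx_decode {n u v u' v' : ℕ} (hv : v < n) (hu' : u' < n) (hv' : v' < n) :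
    idx n u v u' v' % n = v' ∧ idx n u v u' v' / n % n = u' ∧
      idx n u v u' v' / n / n % n = v ∧ idx n u v u' v' / n / n / n = u := by
  have hn : 0 < n := by omega
  have e1 : idx n u v u' v' / n = (u * n + v) * n + u' := by
    unfold idx
    rw [mul_comm _ n, Nat.mul_add_div hn, Nat.div_eq_of_lt hv', add_zero]
  have e2 : idx n u v u' v' / n / n = u * n + v := by
    rw [e1, mul_comm _ n, Nat.mul_add_div hn, Nat.div_eq_of_lt hu', add_zero]
  have e3 : idx n u v u' v' / n / n / n = u := by
    rw [e2, mul_comm _ n, Nat.mul_add_div hn, Nat.div_eq_of_lt hv, add_zero]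
  refine ⟨?_, ?_, ?_, e3⟩
  · unfold idx
    rw [Nat.mul_add_mod', Nat.mod_eq_of_lt hv']
  · rw [e1, Nat.mul_add_mod', Nat.mod_eq_of_lt hu']
  · rw [e2, Nat.mul_add_mod', Nat.mod_eq_of_lt hv]

/-- The formula is satisfiable iff there are points such that the segments of `Q` are disjoint. -/
theorem listF_sat (n : ℕ) (Q : ℕ → ℕ → ℕ → ℕ → Prop) [∀ a b c d, Decidable (Q a b c d)] :
    (∃ x : ℕ → ℝ, (conj (listF n Q)).holds x) ↔ ∃ P : ℕ → Pt, ∀ u < n, ∀ v < n, ∀ u' < n,
      ∀ v' < n, Q u v u' v' → Disjoint (segment ℝ (P u) (P v)) (segment ℝ (P u') (P v')) := by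
  constructor
  · rintro ⟨x, hx⟩
    rw [conj_holds] at hx
    refine ⟨pt x, fun u hu v hv u' hu' v' hv' hQ => ?_⟩
    rw [sep_iff]
    have := hx _ ((mem_listF n Q _).mpr ⟨u, hu, v, hv, u', hu', v', hv', hQ, rfl⟩)
    rw [sepF_holds] at this
    exact ⟨_, _, _, this⟩
  · rintro ⟨P, hP⟩
    have h1 : ∀ t : ℕ, ∃ c : ℕ → ℝ, ∀ u < n, ∀ v < n, ∀ u' < n, ∀ v' < n, Q u v u' v' →
        t = idx n u v u' v' → SepC (P u) (P v) (P u') (P v') (c 0) (c 1) (c 2) := by
      intro t
      by_cases h : ∃ u v u' v', u < n ∧ v < n ∧ u' < n ∧ v' < n ∧ Q u v u' v' ∧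
        t = idx n u v u' v'
      · obtain ⟨u, v, u', v', hu, hv, hu', hv', hQ, ht⟩ := h
        obtain ⟨α, β, γ, hs⟩ := (sep_iff _ _ _ _).mp (hP u hu v hv u' hu' v' hv' hQ)
        refine ⟨fun i => if i = 0 then α else if i = 1 then β else γ, ?_⟩
        intro u2 hu2 v2 hv2 u2' hu2' v2' hv2' hQ2 ht2
        obtain ⟨a1, a2, a3, a4⟩ := idx_decode (u := u) hv hu' hv'
        obtain ⟨b1, b2, b3, b4⟩ := idx_decode (u := u2) hv2 hu2' hv2'
        rw [← ht] at a1 a2 a3 a4
        rw [← ht2] at b1 b2 b3 b4
        rw [← b1, ← b2, ← b3, ← b4, a1, a2, a3, a4]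
        simpa using hs
      · refine ⟨fun _ => 0, fun u hu v hv u' hu' v' hv' hQ ht => ?_⟩
        exact absurd ⟨u, v, u', v', hu, hv, hu', hv', hQ, ht⟩ h
    choose c hc using h1
    let x : ℕ → ℝ := fun i =>
      if i < 2 * n then (if i % 2 = 0 then (P (i / 2)).1 else (P (i / 2)).2)
      else c ((i - 2 * n) / 3) ((i - 2 * n) % 3)
    have hpt : ∀ i < n, pt x i = P i := by
      intro i hi
      have e1 : x (2 * i) = (P i).1 := by
        simp only [x]
        rw [if_pos (by omega), if_pos (by omega), Nat.mul_div_cancel_left _ (by norm_num)]
      have e2 : x (2 * i + 1) = (P i).2 := by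
        simp only [x]
        rw [if_pos (by omega), if_neg (by omega)]
        congr 2
        omega
      unfold pt
      rw [e1, e2]
    have hx : ∀ t j, j < 3 → x (2 * n + 3 * t + j) = c t j := by
      intro t j hj
      simp only [x]
      rw [if_neg (by omega)]
      congr 1
      · omega
      · omega
    refine ⟨x, (conj_holds _ _).mpr fun φ hφ => ?_⟩
    obtain ⟨u, hu, v, hv, u', hu', v', hv', hQ, rfl⟩ := (mem_listF n Q φ).mp hφ
    rw [sepF_holds, hpt u hu, hpt v hv, hpt u' hu', hpt v' hv']
    have e0 := hx (idx n u v u' v') 0 (by norm_num)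
    have e1 := hx (idx n u v u' v') 1 (by norm_num)
    have e2 := hx (idx n u v u' v') 2 (by norm_num)
    rw [add_zero] at e0
    rw [e0, e1, e2]
    exact hc _ u hu v hv u' hu' v' hv' hQ rfl

end Pool.Agent.helper39.SGE
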