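import Pool.Agent.helper56.SGE.Defs

/-!
# SGE₂ reduces to ETR: geometric part

A straight-line drawing is a simultaneous embedding iff certain pairs of (possibly degenerate)
segments are disjoint, and disjointness of segments is witnessed by a separating line.
-/

set_option autoImplicit false

namespace Pool.Agent.helper39.SGE

open Pool.Agent.helper56.SGE

/-- `α x + β y = γ` separates `{a, b}` from `{c, d}`. -/
def SepC (a b c d : Pt) (α β γ : ℝ) : Prop :=
  α * a.1 + β * a.2 < γ ∧ α * b.1 + β * b.2 < γ ∧ γ < α * c.1 + β * c.2 ∧ γ < α * d.1 + β * d.2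

theorem sep_iff (a b c d : Pt) :
    Disjoint (segment ℝ a b) (segment ℝ c d) ↔ ∃ α β γ : ℝ, SepC a b c d α β γ := by
  constructor
  · intro h
    have hc : IsCompact (segment ℝ a b) := by
      rw [segment_eq_image]
      exact isCompact_Icc.image (by fun_prop)
    have hc' : IsCompact (segment ℝ c d) := by
      rw [segment_eq_image]
      exact isCompact_Icc.image (by fun_prop)
    obtain ⟨f, u, v, h1, h2, h3⟩ := geometric_hahn_banach_compact_closed (convex_segment a b) hc
      (convex_segment c d) hc'.isClosed h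
    have hf : ∀ z : Pt, f z = f (1, 0) * z.1 + f (0, 1) * z.2 := by
      intro z
      have e : z = z.1 • ((1, 0) : Pt) + z.2 • ((0, 1) : Pt) := by
        ext <;> simp
      conv_lhs => rw [e]
      rw [map_add, map_smul, map_smul, smul_eq_mul, smul_eq_mul]
      ring
    refine ⟨f (1, 0), f (0, 1), u, ?_, ?_, ?_, ?_⟩
    · rw [← hf]; exact h1 _ (left_mem_segment ℝ a b)
    · rw [← hf]; exact h1 _ (right_mem_segment ℝ a b)
    · rw [← hf]; exact h2.trans (h3 _ (left_mem_segment ℝ c d))
    · rw [← hf]; exact h2.trans (h3 _ (right_mem_segment ℝ c d))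
  · rintro ⟨α, β, γ, h1, h2, h3, h4⟩
    rw [Set.disjoint_left]
    rintro z ⟨s, t, hs, ht, hst, rfl⟩ ⟨s', t', hs', ht', hst', hz⟩
    have e1 := congrArg Prod.fst hz
    have e2 := congrArg Prod.snd hz
    simp only [Prod.fst_add, Prod.smul_fst, smul_eq_mul, Prod.snd_add, Prod.smul_snd] at e1 e2
    have k1 : α * (s * a.1 + t * b.1) + β * (s * a.2 + t * b.2) < γ := by
      have e : α * (s * a.1 + t * b.1) + β * (s * a.2 + t * b.2) =
        s * (α * a.1 + β * a.2) + t * (α * b.1 + β * b.2) := by ring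
      rw [e]
      have e3 : γ = s * γ + t * γ := by rw [← add_mul, hst, one_mul]
      rcases hs.eq_or_lt with h | h
      · subst h
        rw [zero_add] at hst
        subst hst
        linarith
      · nlinarith [mul_lt_mul_of_pos_left h1 h, mul_le_mul_of_nonneg_left h2.le ht]
    have k2 : γ < α * (s' * c.1 + t' * d.1) + β * (s' * c.2 + t' * d.2) := by
      have e : α * (s' * c.1 + t' * d.1) + β * (s' * c.2 + t' * d.2) =
        s' * (α * c.1 + β * c.2) + t' * (α * d.1 + β * d.2) := by ring
      rw [e]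
      have e3 : γ = s' * γ + t' * γ := by rw [← add_mul, hst', one_mul]
      rcases hs'.eq_or_lt with h | h
      · subst h
        rw [zero_add] at hst'
        subst hst'
        linarith
      · nlinarith [mul_lt_mul_of_pos_left h3 h, mul_le_mul_of_nonneg_left h4.le ht']
    rw [e1, e2] at k2
    linarith

theorem share {a b c z : Pt} (h1 : z ∈ segment ℝ a b) (h2 : z ∈ segment ℝ a c) (h3 : z ≠ a) :
    c ∈ segment ℝ a b ∨ b ∈ segment ℝ a c := by
  rw [segment_eq_image'] at h1 h2
  obtain ⟨s, ⟨hs0, hs1⟩, rfl⟩ := h1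
  obtain ⟨t, ⟨ht0, ht1⟩, h4⟩ := h2
  have h5 : t • (c - a) = s • (b - a) := by
    have := h4
    simp only [add_right_inj] at this
    exact this
  have hs : s ≠ 0 := by
    rintro rfl
    apply h3
    simp
  have ht : t ≠ 0 := by
    rintro rfl
    apply h3
    simp only [zero_smul] at h5
    simp only [← h5, add_zero]
  have hs' : 0 < s := lt_of_le_of_ne hs0 hs.symm
  have ht' : 0 < t := lt_of_le_of_ne ht0 ht.symm
  rcases le_total s t with h | h
  · left
    rw [segment_eq_image']
    refine ⟨s / t, ⟨by positivity, (div_le_one ht').mpr h⟩, ?_⟩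
    have : c - a = (s / t) • (b - a) := by
      rw [div_eq_inv_mul, mul_smul, ← h5, smul_smul, inv_mul_cancel₀ ht, one_smul]
    simp only
    rw [← this]
    abel
  · right
    rw [segment_eq_image']
    refine ⟨t / s, ⟨by positivity, (div_le_one hs').mpr h⟩, ?_⟩
    have : b - a = (t / s) • (c - a) := by
      rw [div_eq_inv_mul, mul_smul, h5, smul_smul, inv_mul_cancel₀ hs, one_smul]
    simp only
    rw [← this]
    abel

/-- The pairs of segments that have to be disjoint. -/
def QG {V ι : Type*} (G : ι → SimpleGraph V) (u v u' v' : V) : Prop :=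
  u ≠ u' ∧ u ≠ v' ∧ v ≠ u' ∧ v ≠ v' ∧ ((u = v ∧ u' = v') ∨ (u = v ∧ ∃ k, (G k).Adj u' v') ∨
    ∃ k, (G k).Adj u v ∧ (G k).Adj u' v')

theorem isSGE_iff {V ι : Type*} (G : ι → SimpleGraph V) (p : V → Pt) :
    IsSGE G p ↔ ∀ u v u' v', QG G u v u' v' →
      Disjoint (segment ℝ (p u) (p v)) (segment ℝ (p u') (p v')) := by
  constructor
  · rintro ⟨⟨hinj, hclear⟩, hcross⟩ u v u' v' ⟨h1, h2, h3, h4, h5⟩
    rcases h5 with ⟨rfl, rfl⟩ | ⟨rfl, k, hk⟩ | ⟨k, hk, hk'⟩
    · rw [segment_same, segment_same, Set.disjoint_singleton]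
      exact fun h => h1 (hinj h)
    · rw [segment_same, Set.disjoint_singleton_left]
      exact hclear (SimpleGraph.iSup_adj.mpr ⟨k, hk⟩) h1 h2
    · rw [Set.disjoint_left]
      intro z hz hz'
      refine hcross k hk hk' ?_ ⟨z, hz, hz', ?_⟩
      · rw [Ne, Sym2.eq_iff]
        tauto
      · rintro ⟨w, hw | hw, hw' | hw', _⟩ <;> subst hw <;> subst hw' <;> tauto
  · intro h
    have hclear : ∀ ⦃u v w : V⦄, (⨆ i, G i).Adj u v → w ≠ u → w ≠ v →
        p w ∉ segment ℝ (p u) (p v) := by
      intro u v w huv hu hv hw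
      obtain ⟨k, hk⟩ := SimpleGraph.iSup_adj.mp huv
      have := h w w u v ⟨hu, hv, hu, hv, Or.inr (Or.inl ⟨rfl, k, hk⟩)⟩
      rw [segment_same, Set.disjoint_singleton_left] at this
      exact this hw
    refine ⟨⟨?_, hclear⟩, ?_⟩
    · intro u v huv
      by_contra hne
      have := h u u v v ⟨hne, hne, hne, hne, Or.inl ⟨rfl, rfl⟩⟩
      rw [segment_same, segment_same, Set.disjoint_singleton] at this
      exact this huv
    · intro k u v u' v' hk hk' hs ⟨z, hz, hz', hw⟩
      have hk2 : (⨆ i, G i).Adj u v := SimpleGraph.iSup_adj.mpr ⟨k, hk⟩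
      have hk2' : (⨆ i, G i).Adj u' v' := SimpleGraph.iSup_adj.mpr ⟨k, hk'⟩
      -- two edges with a common endpoint
      have key : ∀ a b c : V, (⨆ i, G i).Adj a b → (⨆ i, G i).Adj a c → b ≠ c →
          z ∈ segment ℝ (p a) (p b) → z ∈ segment ℝ (p a) (p c) → z ≠ p a → False := by
        intro a b c hab hac hbc h1 h2 h3
        rcases share h1 h2 h3 with h4 | h4
        · exact hclear hab hac.ne.symm hbc.symm h4
        · exact hclear hac hab.ne.symm hbc h4
      by_cases c1 : u = u'
      · subst c1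
        refine key u v v' hk2 hk2' ?_ hz hz' ?_
        · rintro rfl; exact hs rfl
        · intro hzu; exact hw ⟨u, Or.inl rfl, Or.inl rfl, hzu⟩
      by_cases c2 : u = v'
      · subst c2
        refine key u v u' hk2 hk2'.symm ?_ hz (by rw [segment_symm]; exact hz') ?_
        · rintro rfl; exact hs Sym2.eq_swap
        · intro hzu; exact hw ⟨u, Or.inl rfl, Or.inr rfl, hzu⟩
      by_cases c3 : v = u'
      · subst c3
        refine key v u v' hk2.symm hk2' ?_ (by rw [segment_symm]; exact hz) hz' ?_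
        · rintro rfl; exact c2 rfl
        · intro hzu; exact hw ⟨v, Or.inr rfl, Or.inl rfl, hzu⟩
      by_cases c4 : v = v'
      · subst c4
        refine key v u u' hk2.symm hk2'.symm c1 (by rw [segment_symm]; exact hz)
          (by rw [segment_symm]; exact hz') ?_
        intro hzu; exact hw ⟨v, Or.inr rfl, Or.inr rfl, hzu⟩
      have := h u v u' v' ⟨c1, c2, c3, c4, Or.inr (Or.inr ⟨k, hk, hk'⟩)⟩
      exact Set.disjoint_left.mp this hz hz'

end Pool.Agent.helper39.SGE
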